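import Mathlib
import Pool.Agent.H53.ZF.Pcs

set_option autoImplicit false
open Finset

/-! # (c2), T9, near: the strand is rarely near a special point of the next box -/

namespace Pool.Agent.H59.ZF

open Pool.Agent.H75.Perc Pool.Agent.H75.TwoArm Pool.Agent.Q1 Pool.Agent.H47.NC Pool.Agent.ZF
open Pool.Agent.H99.NC Pool.Agent.Q1.M6c Pool.Agent.H65.Four2 Pool.Agent.H53.ZF

lemma co_nx1 (w : Finset (ℤ × ℤ)) (z : ℤ × ℤ) : Co w (vx z) (vx (nx w z)) := by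
  unfold nx
  split_ifs with hω
  · obtain ⟨h1, h2⟩ := Pool.Agent.H75.Perc.vx_nxO z
    exact Relation.ReflTransGen.single ⟨h1, by rw [h2]; exact hω⟩
  · rw [Pool.Agent.H75.Perc.vx_nxC]; exact Co.refl _ _

/-- the vertices of the forward strand are connected -/
lemma co_nx (w : Finset (ℤ × ℤ)) (c : ℤ × ℤ) (i : ℕ) : Co w (vx c) (vx ((nx w)^[i] c)) := by
  induction i with
  | zero => exact Co.refl _ _
  | succ i ih => rw [Function.iterate_succ_apply']; exact ih.trans (co_nx1 _ _)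

/-- the vertices of the backward strand are connected -/
lemma co_pv (w : Finset (ℤ × ℤ)) (c : ℤ × ℤ) (i : ℕ) : Co w (vx c) (vx ((pv w)^[i] c)) := by
  induction i with
  | zero => exact Co.refl _ _
  | succ i ih =>
    rw [Function.iterate_succ_apply']
    have h := co_nx1 w (pv w ((pv w)^[i] c))
    rw [nx_pv] at h
    exact ih.trans h.symm

lemma vx_lab (z : ℤ × ℤ) : |2 * (vx z).1 - (lab z).1| ≤ 1 ∧ |2 * (vx z).2 - (lab z).2| ≤ 1 := by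
  unfold vx lab
  rw [abs_le, abs_le]
  split_ifs <;> simp only <;> omega

lemma vx_plab (z : ℤ × ℤ) : |2 * (vx z).1 - (plab z).1| ≤ 1 ∧ |2 * (vx z).2 - (plab z).2| ≤ 1 := by
  unfold vx plab
  rw [abs_le, abs_le]
  split_ifs <;> simp only <;> omega

/-- the special points -/
def Sp (R : ℤ) (q : ℤ × ℤ) : Prop :=
  q = (R, R) ∨ q = (-R, R) ∨ q = (-R, -R) ∨ q = (R, -R) ∨ q = (R, 0)

/-- **A vertex of the strand is near a special point.** -/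
lemma near_vx {R u : ℤ} {w : Finset (ℤ × ℤ)} {c0 : ℤ × ℤ} (h : Near R u w c0) :
    ∃ q : ℤ × ℤ, Sp R q ∧ ∃ v : ℤ × ℤ, |v.1 - q.1| ≤ 40 * u ∧ |v.2 - q.2| ≤ 40 * u ∧
      Co w (vx c0) v := by
  obtain ⟨q, hq, e, ⟨h1, h2⟩, h3⟩ := h
  refine ⟨q, hq, ?_⟩
  have key : ∀ z : ℤ × ℤ, Co w (vx c0) (vx z) → (lab z = e ∨ plab z = e) →
      ∃ v : ℤ × ℤ, |v.1 - q.1| ≤ 40 * u ∧ |v.2 - q.2| ≤ 40 * u ∧ Co w (vx c0) v := by
    intro z hz he
    refine ⟨vx z, ?_, ?_, hz⟩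
    · have h4 : |2 * (vx z).1 - e.1| ≤ 1 := by
        rcases he with rfl | rfl
        · exact (vx_lab z).1
        · exact (vx_plab z).1
      rw [abs_le] at h1 h4 ⊢
      omega
    · have h4 : |2 * (vx z).2 - e.2| ≤ 1 := by
        rcases he with rfl | rfl
        · exact (vx_lab z).2
        · exact (vx_plab z).2
      rw [abs_le] at h2 h4 ⊢
      omega
  rcases h3 with (⟨n, hn, -⟩ | ⟨n, hn, -⟩) | ⟨a, ⟨n, hn, -⟩, ha⟩ | ⟨b, ⟨n, hn, -⟩, hb⟩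
  · exact key _ (co_nx w c0 n) (Or.inl hn)
  · exact key _ (co_pv w c0 n) (Or.inr hn)
  · exact key a (hn ▸ co_nx w c0 n) (Or.inl ha)
  · exact key b (hn ▸ co_pv w c0 n) (Or.inr hb)

/-- first exit from a box -/
lemma co_exit {w : Finset (ℤ × ℤ)} {q p v : ℤ × ℤ} {M : ℤ} (h : Co w p v)
    (hp : |p.1 - q.1| ≤ M ∧ |p.2 - q.2| ≤ M) (hv : M < |v.1 - q.1| ∨ M < |v.2 - q.2|) :
    ∃ v' : ℤ × ℤ, (M ≤ |v'.1 - q.1| ∨ M ≤ |v'.2 - q.2|) ∧
      Co (w ∩ Bx (q.1 - M) (q.1 + M) (q.2 - M) (q.2 + M)) p v' := by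
  obtain ⟨z, z', h1, h2, h3, h4⟩ := exit_rel (X := fun z : ℤ × ℤ => |z.1 - q.1| ≤ M ∧ |z.2 - q.2| ≤ M)
    h hp (by
      rintro ⟨h1, h2⟩
      omega)
  refine ⟨z, ?_, ?_⟩
  · have h5 := unit_cases h3.1
    rw [le_abs, le_abs]
    rw [abs_le, abs_le] at h1
    by_contra hc
    apply h2
    rw [abs_le, abs_le]
    push Not at hc
    omega
  · refine Relation.ReflTransGen.mono (fun a b hab => ?_) _ _ h4
    obtain ⟨h5, h6, h7⟩ := hab
    refine ⟨h5.1, mem_inter.2 ⟨h5.2, mem_Bx.2 ?_⟩⟩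
    have h8 := unit_cases h5.1
    rw [abs_le, abs_le] at h6 h7
    simp only [Prod.fst_add, Prod.snd_add]
    omega

/-- the labels of `BB R` are fresh at the level `R` -/
lemma fresh_BB {E W ω ω' : Finset (ℤ × ℤ)} {c0 : ℤ × ℤ} {R : ℤ} (hR : 0 ≤ R) (hE : BB (2 * R) ⊆ E)
    (hd : Disjoint E W) {e : ℤ × ℤ} (he : e ∈ BB R)
    (h : e ∈ mix (AR E W c0 R ω) ω ω' ∪ W) : e ∈ ω' := by
  have hb : e ∈ Pool.Agent.H75.TwoArm.BB (2 * R) := Bx_sub (by omega) (by omega) (by omega) (by omega) he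
  rcases mem_union.1 h with h | h
  · rcases mem_mix.1 h with ⟨-, h1⟩ | ⟨h1, -⟩
    · exfalso
      rcases mem_union.1 h1 with h2 | h2
      · exact (mem_sdiff.1 h2).2 hb
      · classical
        unfold ExL at h2
        have h3 := (mem_filter.1 h2).2
        rcases h3 with ⟨n, hn, h3⟩ | ⟨n, hn, h3⟩
        · exact h3 n le_rfl (hn ▸ he)
        · exact h3 n le_rfl (hn ▸ he)
    · exact h1
  · exact absurd h (Finset.disjoint_left.1 hd (hE hb))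

/-- **T9, first half**: the next state is rarely near a special point. -/
theorem t9_near (κ : ℝ) (hκ : 1 < κ) : ∃ Mh : ℕ, 1000 ≤ Mh ∧ ∀ (t u : ℤ), 1 ≤ u → Mh * u ≤ t →
    ∀ (E W : Finset (ℤ × ℤ)) (c0 : ℤ × ℤ), Disjoint E W → (∀ e ∈ E, (e.1 + e.2) % 2 = 1) →
    ∀ (R : ℤ), 4 * t ≤ R → BB (2 * R) ⊆ E → (2 * R < |(vx c0).1| ∨ 2 * R < |(vx c0).2|) →
    ∀ ω ⊆ E,
    Pr E (fun ω' => Alive t (mix (AR E W c0 R ω) ω ω' ∪ W) c0 ∧
      Near t u (mix (AR E W c0 R ω) ω ω' ∪ W) c0) ≤ κ⁻¹ := by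
  obtain ⟨δ, hδ0, hδ1, hdec⟩ := open_arm_decay
  obtain ⟨k, hk⟩ := exists_pow_lt_of_lt_one (show (0 : ℝ) < κ⁻¹ / 5 by positivity)
    (show 1 - δ < 1 by linarith)
  refine ⟨1000 + 40 * 4 ^ k, by omega, ?_⟩
  intro t u hu hMh E W c0 hd hodd R hR hE hc0 ω _
  have hk4 : (1 : ℤ) ≤ 4 ^ k := one_le_pow₀ (by norm_num)
  have hM : 4 ^ k * (40 * u) ≤ t := by
    push_cast at hMh
    nlinarith
  have h40 : 40 * u ≤ 4 ^ k * (40 * u) := by nlinarith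
  set M := (4 : ℤ) ^ k * (40 * u) with hMdef
  set ev : ℤ × ℤ → Finset (ℤ × ℤ) → Prop := fun q ω' => ∃ p v : ℤ × ℤ, |p.1 - q.1| ≤ 40 * u ∧
    |p.2 - q.2| ≤ 40 * u ∧ (M ≤ |v.1 - q.1| ∨ M ≤ |v.2 - q.2|) ∧ Co ω' p v with hev
  have hone : ∀ q, Pr E (ev q) ≤ κ⁻¹ / 5 := fun q =>
    (hdec E hodd q (40 * u) (by omega) k).trans hk.le
  have hstep : Pr E (fun ω' => Alive t (mix (AR E W c0 R ω) ω ω' ∪ W) c0 ∧
      Near t u (mix (AR E W c0 R ω) ω ω' ∪ W) c0) ≤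
      Pr E (fun ω' => ev (t, t) ω' ∨ ev (-t, t) ω' ∨ ev (-t, -t) ω' ∨ ev (t, -t) ω' ∨ ev (t, 0) ω') := by
    refine Pr_mono fun ω' _ hω' => ?_
    obtain ⟨q, hq, v, h1, h2, h3⟩ := near_vx hω'.2
    have hqt : |q.1| ≤ t ∧ |q.2| ≤ t := by
      rw [abs_le, abs_le]
      rcases hq with rfl | rfl | rfl | rfl | rfl <;> simp only <;> omega
    have hfar : M < |(vx c0).1 - q.1| ∨ M < |(vx c0).2 - q.2| := by
      rw [abs_le, abs_le] at hqt
      rw [lt_abs, lt_abs] at hc0 ⊢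
      omega
    obtain ⟨v', h4, h5⟩ := co_exit h3.symm (q := q) (M := M) ⟨by omega, by omega⟩ hfar
    have h6 : ev q ω' := by
      refine ⟨v, v', h1, h2, h4, h5.mono fun e he => ?_⟩
      obtain ⟨h7, h8⟩ := mem_inter.1 he
      refine fresh_BB (R := R) (by omega) hE hd ?_ h7
      unfold Pool.Agent.H75.TwoArm.BB
      rw [mem_Bx] at h8 ⊢
      rw [abs_le, abs_le] at hqt
      omega
    rcases hq with rfl | rfl | rfl | rfl | rfl
    · exact Or.inl h6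
    · exact Or.inr (Or.inl h6)
    · exact Or.inr (Or.inr (Or.inl h6))
    · exact Or.inr (Or.inr (Or.inr (Or.inl h6)))
    · exact Or.inr (Or.inr (Or.inr (Or.inr h6)))
  refine hstep.trans ?_
  have a1 := hone (t, t)
  have a2 := hone (-t, t)
  have a3 := hone (-t, -t)
  have a4 := hone (t, -t)
  have a5 := hone (t, 0)
  have b1 := Pr_or_le E (ev (t, t)) (fun ω' => ev (-t, t) ω' ∨ ev (-t, -t) ω' ∨ ev (t, -t) ω' ∨
    ev (t, 0) ω')
  have b2 := Pr_or_le E (ev (-t, t)) (fun ω' => ev (-t, -t) ω' ∨ ev (t, -t) ω' ∨ ev (t, 0) ω')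
  have b3 := Pr_or_le E (ev (-t, -t)) (fun ω' => ev (t, -t) ω' ∨ ev (t, 0) ω')
  have b4 := Pr_or_le E (ev (t, -t)) (ev (t, 0))
  linarith

end Pool.Agent.H59.ZF
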