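import Mathlib
import Pool.Agent.H99.ZF.PB
import Pool.Agent.H53.ZF.Cong
import Pool.Agent.H39.ZF.StopT8
import Pool.Agent.H59.ZF.T9n

set_option autoImplicit false
open Finset

/-! # (c2), T9, close tips: piece C -/

namespace Pool.Agent.H59.ZF

open Pool.Agent.H75.Perc hiding fc BB
open Pool.Agent.H75.TwoArm Pool.Agent.Q1 Pool.Agent.H47.NC Pool.Agent.ZF
open Pool.Agent.H99.NC Pool.Agent.Q1.M6c Pool.Agent.H65.Four2 Pool.Agent.H65.G1 Pool.Agent.H53.ZF
open Pool.Agent.H99.ZF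

/-- last index with `P` -/
lemma last_ix {P : ℕ → Prop} (h0 : P 0) : ∀ {m : ℕ}, ¬ P m →
    ∃ i < m, P i ∧ ∀ j, i < j → j ≤ m → ¬ P j := by
  intro m
  induction m with
  | zero => intro h; exact absurd h0 h
  | succ m ih =>
    intro h
    by_cases hm : P m
    · refine ⟨m, Nat.lt_succ_self m, hm, fun j h1 h2 => ?_⟩
      have : j = m + 1 := by omega
      rw [this]; exact h
    · obtain ⟨i, h1, h2, h3⟩ := ih hm
      refine ⟨i, by omega, h2, fun j h4 h5 => ?_⟩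
      rcases Nat.lt_or_ge m j with h6 | h6
      · have : j = m + 1 := by omega
        rw [this]; exact h
      · exact h3 j h4 h6

section

variable {R : ℤ} {w : Finset (ℤ × ℤ)} {c0 a b : ℤ × ℤ}

lemma lab_far (_hR : 1 ≤ R) (hc0 : 2 * R < |(vx c0).1| ∨ 2 * R < |(vx c0).2|) : lab c0 ∉ BB R := by
  intro h
  have h1 := vx_lab c0
  unfold BB at h
  have h2 := mem_Bx.1 h
  rw [abs_le, abs_le] at h1
  rw [lt_abs, lt_abs] at hc0
  omega

lemma plab_far (_hR : 1 ≤ R) (hc0 : 2 * R < |(vx c0).1| ∨ 2 * R < |(vx c0).2|) : plab c0 ∉ BB R := by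
  intro h
  have h1 := vx_plab c0
  unfold BB at h
  have h2 := mem_Bx.1 h
  rw [abs_le, abs_le] at h1
  rw [lt_abs, lt_abs] at hc0
  omega

lemma tf_of (hc0 : lab c0 ∉ BB R) (h : TipF w (BB R) c0 a) : TF R a := by
  obtain ⟨n, h1, h2, h3⟩ := h
  refine ⟨h2, ?_⟩
  rcases n with _ | n
  · exfalso
    exact hc0 (by rw [show c0 = a from h1]; exact h2)
  · rw [← h1, Function.iterate_succ_apply', plab_nx]
    exact h3 n (Nat.lt_succ_self n)

lemma tb_of (hc0 : plab c0 ∉ BB R) (h : TipB w (BB R) c0 b) : TB R b := by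
  obtain ⟨n, h1, h2, h3⟩ := h
  refine ⟨h2, ?_⟩
  rcases n with _ | n
  · exfalso
    exact hc0 (by rw [show c0 = b from h1]; exact h2)
  · rw [← h1, Function.iterate_succ_apply', lab_pv]
    exact h3 n (Nat.lt_succ_self n)

lemma nx_pv_iter (w : Finset (ℤ × ℤ)) (c : ℤ × ℤ) (n : ℕ) : ∀ i ≤ n,
    (nx w)^[i] ((pv w)^[n] c) = (pv w)^[n - i] c := by
  intro i
  induction i with
  | zero => intro _; rfl
  | succ i ih =>
    intro hi
    rw [Function.iterate_succ_apply', ih (by omega)]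
    have : n - i = (n - (i + 1)) + 1 := by omega
    rw [this, Function.iterate_succ_apply', nx_pv]

lemma out_of (ha : TipF w (BB R) c0 a) (hb : TipB w (BB R) c0 b) : Out R w b a := by
  obtain ⟨n, h1, h2, h3⟩ := ha
  obtain ⟨m, g1, g2, g3⟩ := hb
  have hm : (nx w)^[m] b = c0 := by
    rw [← g1, nx_pv_iter w c0 m m le_rfl, Nat.sub_self]; rfl
  refine ⟨n + m, by rw [Function.iterate_add_apply, hm, h1], fun i hi => ?_⟩
  rcases Nat.lt_or_ge i m with h | h
  · rw [← g1, nx_pv_iter w c0 m i h.le]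
    have : m - i = (m - i - 1) + 1 := by omega
    rw [this, Function.iterate_succ_apply', lab_pv]
    exact g3 _ (by omega)
  · have : i = (i - m) + m := by omega
    rw [this, Function.iterate_add_apply, hm]
    exact h3 _ (by omega)

/-- an open label outside of the box is a bond of `w \ BB R` -/
lemma co_step_out {z : ℤ × ℤ} (h : lab z ∉ BB R) : Co (w \ BB R) (vx z) (vx (nx w z)) := by
  unfold nx
  split_ifs with hω
  · obtain ⟨h1, h2⟩ := Pool.Agent.H75.Perc.vx_nxO z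
    exact Relation.ReflTransGen.single ⟨h1, by rw [h2]; exact mem_sdiff.2 ⟨hω, h⟩⟩
  · rw [Pool.Agent.H75.Perc.vx_nxC]; exact Co.refl _ _

lemma co_iter_out {c : ℤ × ℤ} {n : ℕ} (h : ∀ i < n, lab ((nx w)^[i] c) ∉ BB R) :
    Co (w \ BB R) (vx c) (vx ((nx w)^[n] c)) := by
  induction n with
  | zero => exact Co.refl _ _
  | succ n ih =>
    rw [Function.iterate_succ_apply']
    exact (ih fun i hi => h i (by omega)).trans (co_step_out (h n (Nat.lt_succ_self n)))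

lemma co_iter_pv {c : ℤ × ℤ} {n : ℕ} (h : ∀ i < n, plab ((pv w)^[i] c) ∉ BB R) :
    Co (w \ BB R) (vx c) (vx ((pv w)^[n] c)) := by
  induction n with
  | zero => exact Co.refl _ _
  | succ n ih =>
    rw [Function.iterate_succ_apply']
    have h1 := co_step_out (w := w) (R := R) (z := pv w ((pv w)^[n] c))
      (by rw [lab_pv]; exact h n (Nat.lt_succ_self n))
    rw [nx_pv] at h1
    exact (ih fun i hi => h i (by omega)).trans h1.symm

lemma duM {E E' : Finset (ℤ × ℤ)} (h : E ⊆ E') (v : Finset (ℤ × ℤ)) : du E v ⊆ du E' v := by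
  unfold du
  exact map_subset_map.2 (sdiff_subset_sdiff h (subset_refl _))

/-- dual connection by closed labels outside of the box -/
def JD (R : ℤ) (w : Finset (ℤ × ℤ)) (f g : ℤ × ℤ) : Prop := ∃ F, Co (du F (w ∪ BB R)) f g

lemma JD.trans {f g h : ℤ × ℤ} (h1 : JD R w f g) (h2 : JD R w g h) : JD R w f h := by
  obtain ⟨F, hF⟩ := h1
  obtain ⟨F', hF'⟩ := h2
  exact ⟨F ∪ F', (hF.mono (duM subset_union_left _)).trans
    (hF'.mono (duM subset_union_right _))⟩

lemma JD.symm {f g : ℤ × ℤ} (h1 : JD R w f g) : JD R w g f := by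
  obtain ⟨F, hF⟩ := h1
  exact ⟨F, hF.symm⟩

lemma JD.refl (f : ℤ × ℤ) : JD R w f f := ⟨∅, Co.refl _ _⟩

lemma jd_step_out {z : ℤ × ℤ} (h : lab z ∉ BB R) : JD R w (fi z) (fi (nx w z)) := by
  unfold nx
  split_ifs with hω
  · rw [StrandAux.fi_nxO]; exact JD.refl _
  · obtain ⟨h1, h2⟩ := StrandAux.fi_nxC z
    refine ⟨{lab z}, Relation.ReflTransGen.single ⟨h1, ?_⟩⟩
    rw [h2]
    refine StrandAux.mem_du (mem_singleton_self _) fun h3 => ?_
    rcases mem_union.1 h3 with h4 | h4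
    · exact hω h4
    · exact h h4

lemma jd_iter_out {c : ℤ × ℤ} {n : ℕ} (h : ∀ i < n, lab ((nx w)^[i] c) ∉ BB R) :
    JD R w (fi c) (fi ((nx w)^[n] c)) := by
  induction n with
  | zero => exact JD.refl _
  | succ n ih =>
    rw [Function.iterate_succ_apply']
    exact (ih fun i hi => h i (by omega)).trans (jd_step_out (h n (Nat.lt_succ_self n)))

lemma jd_iter_pv {c : ℤ × ℤ} {n : ℕ} (h : ∀ i < n, plab ((pv w)^[i] c) ∉ BB R) :
    JD R w (fi c) (fi ((pv w)^[n] c)) := by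
  induction n with
  | zero => exact JD.refl _
  | succ n ih =>
    rw [Function.iterate_succ_apply']
    have h1 := jd_step_out (w := w) (R := R) (z := pv w ((pv w)^[n] c))
      (by rw [lab_pv]; exact h n (Nat.lt_succ_self n))
    rw [nx_pv] at h1
    exact (ih fun i hi => h i (by omega)).trans h1.symm

/-- a met label has a corner `z'` of the strands, before the label -/
lemma met_cases {e : ℤ × ℤ} (h : MetL w (BB R) c0 e) : ∃ z', lab z' = e ∧
    (Co (w \ BB R) (vx c0) (vx z') ∧ Co (w \ BB R) (vx c0) (vx (nx w z'))) ∧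
    (JD R w (fi c0) (fi z') ∧ JD R w (fi c0) (fi (nx w z'))) := by
  rcases h with ⟨n, hn, h⟩ | ⟨n, hn, h⟩
  · refine ⟨(nx w)^[n] c0, hn, ⟨co_iter_out fun i hi => h i hi.le, ?_⟩,
      jd_iter_out fun i hi => h i hi.le, ?_⟩
    · rw [← Function.iterate_succ_apply' (nx w)]
      exact co_iter_out fun i hi => h i (by omega)
    · rw [← Function.iterate_succ_apply' (nx w)]
      exact jd_iter_out fun i hi => h i (by omega)
  · refine ⟨(pv w)^[n + 1] c0, ?_, ⟨co_iter_pv fun i hi => h i (by omega), ?_⟩,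
      jd_iter_pv fun i hi => h i (by omega), ?_⟩
    · rw [Function.iterate_succ_apply', lab_pv]; exact hn
    · rw [Function.iterate_succ_apply', nx_pv]
      exact co_iter_pv fun i hi => h i (by omega)
    · rw [Function.iterate_succ_apply', nx_pv]
      exact jd_iter_pv fun i hi => h i (by omega)

lemma vx_same {z z' : ℤ × ℤ} (h : lab z' = lab z) : vx (nxO z) = vx z' ∨ vx (nxO z) = vx (nxO z') := by
  have h1 := Pool.Agent.H75.Perc.vx_nxO z
  have h2 := Pool.Agent.H75.Perc.vx_nxO z'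
  rw [h] at h2
  have h3 := unit_cases h1.1
  have h4 := unit_cases h2.1
  have h5 := congrArg Prod.fst (h1.2.trans h2.2.symm)
  have h6 := congrArg Prod.snd (h1.2.trans h2.2.symm)
  simp only [Prod.fst_add, Prod.snd_add] at h5 h6
  by_cases h7 : vx (nxO z) = vx z'
  · exact Or.inl h7
  · right
    have h8 : ¬ ((vx (nxO z)).1 = (vx z').1 ∧ (vx (nxO z)).2 = (vx z').2) :=
      fun h9 => h7 (Prod.ext h9.1 h9.2)
    ext <;> omega

lemma fi_same {z z' : ℤ × ℤ} (h : lab z' = lab z) : fi (nxC z) = fi z' ∨ fi (nxC z) = fi (nxC z') := by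
  have h1 := StrandAux.fi_nxC z
  have h2 := StrandAux.fi_nxC z'
  rw [h] at h2
  have h3 := unit_cases h1.1
  have h4 := unit_cases h2.1
  have h5 := congrArg Prod.fst (h1.2.trans h2.2.symm)
  have h6 := congrArg Prod.snd (h1.2.trans h2.2.symm)
  simp only [Prod.fst_add, Prod.snd_add] at h5 h6
  by_cases h7 : fi (nxC z) = fi z'
  · exact Or.inl h7
  · right
    have h8 : ¬ ((fi (nxC z)).1 = (fi z').1 ∧ (fi (nxC z)).2 = (fi z').2) :=
      fun h9 => h7 (Prod.ext h9.1 h9.2)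
    ext <;> omega

/-- the next vertex behind a met open label is joined to the root outside of the box -/
lemma met_open {z : ℤ × ℤ} (h : MetL w (BB R) c0 (lab z)) : Co (w \ BB R) (vx c0) (vx (nx w z)) ∨
    lab z ∉ w := by
  by_cases hw : lab z ∈ w
  · left
    obtain ⟨z', h1, ⟨h2, h3⟩, -⟩ := met_cases h
    have e1 : nx w z = nxO z := by unfold nx; rw [if_pos hw]
    have e2 : nx w z' = nxO z' := by unfold nx; rw [if_pos (h1 ▸ hw)]
    rw [e1]
    rw [e2] at h3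
    rcases vx_same h1 with h4 | h4
    · rw [h4]; exact h2
    · rw [h4]; exact h3
  · exact Or.inr hw

lemma met_closed {z : ℤ × ℤ} (h : MetL w (BB R) c0 (lab z)) : JD R w (fi c0) (fi (nx w z)) ∨
    lab z ∈ w := by
  by_cases hw : lab z ∈ w
  · exact Or.inr hw
  · left
    obtain ⟨z', h1, -, ⟨h2, h3⟩⟩ := met_cases h
    have e1 : nx w z = nxC z := by unfold nx; rw [if_neg hw]
    have e2 : nx w z' = nxC z' := by unfold nx; rw [if_neg (h1 ▸ hw)]
    rw [e1]
    rw [e2] at h3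
    rcases fi_same h1 with h4 | h4
    · rw [h4]; exact h2
    · rw [h4]; exact h3

open Classical in
/-- open labels which are not met -/
noncomputable def NO (R : ℤ) (w : Finset (ℤ × ℤ)) (c0 : ℤ × ℤ) : Finset (ℤ × ℤ) :=
  w.filter fun e => ¬ MetL w (BB R) c0 e

lemma mem_NO {e : ℤ × ℤ} : e ∈ NO R w c0 ↔ e ∈ w ∧ ¬ MetL w (BB R) c0 e := by
  classical
  unfold NO
  exact mem_filter

/-- **Open arm.** -/
lemma arm_open (hPB : PB1) {D : ℤ} {a' : ℤ × ℤ} {m : ℕ} (hR : 1 ≤ R) (hc : lab c0 ∉ BB R)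
    (hc' : plab c0 ∉ BB R) (ha : TipF w (BB R) c0 a) (hb : TipB w (BB R) c0 b)
    (hW : Walk R D (vx a) b a) (hm : (nx w)^[m] a = a') (h1 : |(vx a').1| ≤ R) (h2 : |(vx a').2| ≤ R)
    (hfar : D < |(vx a').1 - (vx a).1| ∨ D < |(vx a').2 - (vx a).2|) :
    ∃ y : ℤ × ℤ, |y.1 - (vx a).1| ≤ D ∧ |y.2 - (vx a).2| ≤ D ∧ Co (NO R w c0) y (vx a') := by
  have hTF := tf_of hc ha
  have hTB := tb_of hc' hb
  have hO := out_of ha hb
  have hca : Co (w \ BB R) (vx c0) (vx a) := by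
    obtain ⟨n, g1, g2, g3⟩ := ha
    rw [← g1]
    exact co_iter_out g3
  have hend : ¬ Co (w \ BB R) (vx a) (vx ((nx w)^[m] a)) := by
    intro h
    rw [hm] at h
    have h3 := hPB R D w a b (vx a') hR hTF hTB hO hW h h1 h2
    omega
  obtain ⟨i, him, hi, hlast⟩ := last_ix (P := fun j => Co (w \ BB R) (vx a) (vx ((nx w)^[j] a)))
    (Co.refl _ _) hend
  refine ⟨vx ((nx w)^[i] a), ?_⟩
  set z := (nx w)^[i] a with hz
  have hnext := hlast (i + 1) (Nat.lt_succ_self i) him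
  rw [Function.iterate_succ_apply', ← hz] at hnext
  have hzB : lab z ∈ BB R := by
    by_contra hcon
    exact hnext (hi.trans (co_step_out hcon))
  have hzR : |(vx z).1| ≤ R ∧ |(vx z).2| ≤ R := by
    have h3 := vx_lab z
    unfold BB at hzB
    have h4 := mem_Bx.1 hzB
    rw [abs_le, abs_le] at h3 ⊢
    omega
  have h3 := hPB R D w a b (vx z) hR hTF hTB hO hW hi hzR.1 hzR.2
  refine ⟨h3.1, h3.2, ?_⟩
  have key : ∀ j, i ≤ j → j ≤ m → Co (NO R w c0) (vx z) (vx ((nx w)^[j] a)) := by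
    intro j
    induction j with
    | zero =>
      intro h4 _
      have h5 : i = 0 := by omega
      rw [hz, h5]; exact Co.refl _ _
    | succ j ih =>
      intro h4 h5
      rcases Nat.lt_or_ge j i with h6 | h6
      · have h7 : i = j + 1 := by omega
        rw [hz, h7]; exact Co.refl _ _
      · refine (ih h6 (by omega)).trans ?_
        have h7 := hlast (j + 1) (by omega) h5
        rw [Function.iterate_succ_apply'] at h7 ⊢
        set z' := (nx w)^[j] a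
        by_cases hw : lab z' ∈ w
        · have h8 : ¬ MetL w (BB R) c0 (lab z') := by
            intro h9
            rcases met_open h9 with h10 | h10
            · exact h7 (hca.symm.trans h10)
            · exact h10 hw
          have e1 : nx w z' = nxO z' := by unfold nx; rw [if_pos hw]
          rw [e1]
          obtain ⟨g1, g2⟩ := Pool.Agent.H75.Perc.vx_nxO z'
          exact Relation.ReflTransGen.single ⟨g1, by rw [g2]; exact mem_NO.2 ⟨hw, h8⟩⟩
        · have e1 : nx w z' = nxC z' := by unfold nx; rw [if_neg hw]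
          rw [e1, Pool.Agent.H75.Perc.vx_nxC]; exact Co.refl _ _
  have h4 := key m him.le le_rfl
  rw [hm] at h4
  exact h4

/-- closed dual step with a label which is not met -/
def NC (R : ℤ) (w : Finset (ℤ × ℤ)) (c0 : ℤ × ℤ) (f g : ℤ × ℤ) : Prop :=
  IsUnit4 (g - f) ∧ ∃ e : ℤ × ℤ, f + g = e + (1, 1) ∧ e ∉ w ∧ ¬ MetL w (BB R) c0 e

/-- **Dual arm.** -/
lemma arm_dual (hPB : PB2) {D : ℤ} {a' : ℤ × ℤ} {m : ℕ} (hR : 1 ≤ R) (hc : lab c0 ∉ BB R)
    (hc' : plab c0 ∉ BB R) (ha : TipF w (BB R) c0 a) (hb : TipB w (BB R) c0 b)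
    (hW : Walk R D (vx a) a b) (hm : (nx w)^[m] a = a') (h1 : lab a' ∈ BB R)
    (hfar : D + 1 < |(fi a').1 - (vx a).1| ∨ D + 1 < |(fi a').2 - (vx a).2|) :
    ∃ y : ℤ × ℤ, |y.1 - (vx a).1| ≤ D + 1 ∧ |y.2 - (vx a).2| ≤ D + 1 ∧
      Relation.ReflTransGen (NC R w c0) y (fi a') := by
  have hTF := tf_of hc ha
  have hTB := tb_of hc' hb
  have hO := out_of ha hb
  have hca : JD R w (fi c0) (fi a) := by
    obtain ⟨n, g1, g2, g3⟩ := ha
    rw [← g1]
    exact jd_iter_out g3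
  have hPB' : ∀ z, JD R w (fi a) (fi z) → lab z ∈ BB R →
      |(fi z).1 - (vx a).1| ≤ D + 1 ∧ |(fi z).2 - (vx a).2| ≤ D + 1 := by
    rintro z ⟨F, hF⟩ hzB
    refine hPB R D w F a b (fi z) (lab z) hR hTF hTB hO hW hF hzB ?_
    exact unit_neg (lab_coord z).2.2.2.2.2.2
  have hend : ¬ JD R w (fi a) (fi ((nx w)^[m] a)) := by
    intro h
    rw [hm] at h
    have h3 := hPB' _ h h1
    omega
  obtain ⟨i, him, hi, hlast⟩ := last_ix (P := fun j => JD R w (fi a) (fi ((nx w)^[j] a)))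
    (JD.refl _) hend
  refine ⟨fi ((nx w)^[i] a), ?_⟩
  set z := (nx w)^[i] a with hz
  have hnext := hlast (i + 1) (Nat.lt_succ_self i) him
  rw [Function.iterate_succ_apply', ← hz] at hnext
  have hzB : lab z ∈ BB R := by
    by_contra hcon
    exact hnext (hi.trans (jd_step_out hcon))
  have h3 := hPB' z hi hzB
  refine ⟨h3.1, h3.2, ?_⟩
  have key : ∀ j, i ≤ j → j ≤ m → Relation.ReflTransGen (NC R w c0) (fi z) (fi ((nx w)^[j] a)) := by
    intro j
    induction j with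
    | zero =>
      intro h4 _
      have h5 : i = 0 := by omega
      rw [hz, h5]
    | succ j ih =>
      intro h4 h5
      rcases Nat.lt_or_ge j i with h6 | h6
      · have h7 : i = j + 1 := by omega
        rw [hz, h7]
      · refine (ih h6 (by omega)).trans ?_
        have h7 := hlast (j + 1) (by omega) h5
        rw [Function.iterate_succ_apply'] at h7 ⊢
        set z' := (nx w)^[j] a
        by_cases hw : lab z' ∈ w
        · have e1 : nx w z' = nxO z' := by unfold nx; rw [if_pos hw]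
          rw [e1, StrandAux.fi_nxO]
        · have h8 : ¬ MetL w (BB R) c0 (lab z') := by
            intro h9
            rcases met_closed h9 with h10 | h10
            · exact h7 (hca.symm.trans h10)
            · exact hw h10
          have e1 : nx w z' = nxC z' := by unfold nx; rw [if_neg hw]
          rw [e1]
          obtain ⟨g1, g2⟩ := StrandAux.fi_nxC z'
          exact Relation.ReflTransGen.single ⟨g1, lab z', g2, hw, h8⟩
  have h4 := key m him.le le_rfl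
  rw [hm] at h4
  exact h4

lemma vx_bd (hTF : TF R a) : (|(vx a).1| ≤ R ∧ |(vx a).2| ≤ R) ∧
    (R ≤ |(vx a).1| ∨ R ≤ |(vx a).2|) := by
  have h1 := BC_TF hTF
  unfold BC at h1
  unfold vx
  simp only [abs_le, le_abs]
  omega

lemma mix_inter (A ω ω' : Finset (ℤ × ℤ)) : ω ∩ A = mix A ω ω' ∩ A := by
  ext x
  rw [mem_inter, mem_inter, mem_mix]
  constructor
  · rintro ⟨h1, h2⟩
    exact ⟨Or.inl ⟨h1, h2⟩, h2⟩
  · rintro ⟨h1 | h1, h2⟩
    · exact h1
    · exact absurd h2 h1.2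

/-- labels in the double box which are neither met nor in the resampled part -/
lemma free_lab {E W ω ω' : Finset (ℤ × ℤ)} (hω : ω ⊆ E) (hω' : ω' ⊆ E) (hd : Disjoint E W)
    (hE : BB (2 * R) ⊆ E) {e : ℤ × ℤ} (he : e ∈ BB (2 * R))
    (hm : ¬ MetL (mix (AR E W c0 R ω) ω ω' ∪ W) (BB R) c0 e) :
    e ∈ ω' ↔ e ∈ mix (AR E W c0 R ω) ω ω' ∪ W := by
  have h0 := mix_inter (AR E W c0 R ω) ω ω'
  rw [met_congr hω (H99.NC.mix_subset hω hω') h0] at hm
  have hA : e ∉ AR E W c0 R ω := by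
    intro h
    rcases mem_union.1 h with h2 | h2
    · exact (mem_sdiff.1 h2).2 he
    · exact hm (Pool.Agent.H39.ZF.mem_ExL.1 h2).2
  have hW : e ∉ W := Finset.disjoint_left.1 hd (hE he)
  rw [mem_union, mem_mix]
  constructor
  · exact fun h => Or.inl (Or.inr ⟨h, hA⟩)
  · rintro ((h | h) | h)
    · exact absurd h.2 hA
    · exact h.1
    · exact absurd h hW

end

lemma far_of {v x : ℤ × ℤ} {R t M : ℤ} (h1 : |v.1| ≤ t + 1 ∧ |v.2| ≤ t + 1)
    (h2 : R ≤ |x.1| ∨ R ≤ |x.2|) (h3 : 4 * t ≤ R) (h4 : 4 * M ≤ R) (h5 : 1000 ≤ R) :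
    M < |v.1 - x.1| ∨ M < |v.2 - x.2| := by
  rw [abs_le, abs_le] at h1
  rcases h2 with h2 | h2
  · left
    rw [le_abs] at h2
    rw [lt_abs]
    omega
  · right
    rw [le_abs] at h2
    rw [lt_abs]
    omega

lemma vx_of_lab {a' : ℤ × ℤ} {t : ℤ} (h : lab a' ∈ BB t) : |(vx a').1| ≤ t ∧ |(vx a').2| ≤ t := by
  have h3 := vx_lab a'
  unfold BB at h
  have h4 := mem_Bx.1 h
  rw [abs_le, abs_le] at h3 ⊢
  omega

lemma fi_of_lab {a' : ℤ × ℤ} {t : ℤ} (h : lab a' ∈ BB t) :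
    |(fi a').1| ≤ t + 1 ∧ |(fi a').2| ≤ t + 1 := by
  have h3 := unit_cases (lab_coord a').2.2.2.2.2.2
  unfold BB at h
  have h4 := mem_Bx.1 h
  unfold Pool.Agent.H65.G1.fc at h3
  simp only at h3
  rw [abs_le, abs_le]
  omega

/-- first exit of a dual arm -/
lemma nc_exit {R M : ℤ} {w : Finset (ℤ × ℤ)} {c0 x y f : ℤ × ℤ}
    (h : Relation.ReflTransGen (NC R w c0) y f) (hy : |y.1 - x.1| ≤ M ∧ |y.2 - x.2| ≤ M)
    (hf : M < |f.1 - x.1| ∨ M < |f.2 - x.2|) :
    ∃ z : ℤ × ℤ, (M ≤ |z.1 - x.1| ∨ M ≤ |z.2 - x.2|) ∧ Relation.ReflTransGen (fun a b =>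
      NC R w c0 a b ∧ (|a.1 - x.1| ≤ M ∧ |a.2 - x.2| ≤ M) ∧ (|b.1 - x.1| ≤ M ∧ |b.2 - x.2| ≤ M))
      y z := by
  obtain ⟨z, z', h1, h2, h3, h4⟩ := exit_rel
    (X := fun z : ℤ × ℤ => |z.1 - x.1| ≤ M ∧ |z.2 - x.2| ≤ M) h hy (by rintro ⟨h1, h2⟩; omega)
  refine ⟨z, ?_, h4⟩
  have h5 := unit_cases h3.1
  rw [le_abs, le_abs]
  rw [abs_le, abs_le] at h1
  by_contra hc
  apply h2
  rw [abs_le, abs_le]
  push Not at hc
  omega

lemma nc_mem {R M : ℤ} {x f g e : ℤ × ℤ} (hx : |x.1| ≤ R ∧ |x.2| ≤ R) (hM : 4 * M ≤ R)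
    (hR : 1000 ≤ R) (h5 : IsUnit4 (g - f)) (h6 : f + g = e + (1, 1))
    (hf : |f.1 - x.1| ≤ M ∧ |f.2 - x.2| ≤ M) (hg : |g.1 - x.1| ≤ M ∧ |g.2 - x.2| ≤ M) :
    e ∈ BB (2 * R) := by
  have h11 := unit_cases h5
  have h12 := congrArg Prod.fst h6
  have h13 := congrArg Prod.snd h6
  simp only [Prod.fst_add, Prod.snd_add] at h12 h13
  unfold BB
  rw [mem_Bx]
  rw [abs_le, abs_le] at hf hg hx
  refine ⟨⟨?_, ?_⟩, ⟨?_, ?_⟩, ?_⟩
  · clear h11 h13; omega
  · clear h11 h13; omega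
  · clear h11 h12; omega
  · clear h11 h12; omega
  · clear hf hg hx; omega

lemma bx_mem {R M : ℤ} {x e : ℤ × ℤ} (hx : |x.1| ≤ R ∧ |x.2| ≤ R) (hM : 4 * M ≤ R)
    (hR : 1000 ≤ R) (h : e ∈ Bx (x.1 - M) (x.1 + M) (x.2 - M) (x.2 + M)) : e ∈ BB (2 * R) := by
  unfold BB
  rw [mem_Bx] at h ⊢
  rw [abs_le, abs_le] at hx
  refine ⟨?_, ?_, h.2.2⟩ <;> omega

/-- **Piece C.** -/
theorem pc : PC := by
  intro hPA hPB1 hPB2 κ hκ
  obtain ⟨δ, hδ0, hδ1, hdec⟩ := open_arm_decay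
  obtain ⟨k, hk⟩ := exists_pow_lt_of_lt_one (show (0 : ℝ) < κ⁻¹ by positivity)
    (show 1 - δ < 1 by linarith)
  refine ⟨1000 + 100 * 4 ^ k, by omega, ?_⟩
  intro t E W c0 hd hodd R hR hE hc0 ω hω u' hu' hMh hcl
  obtain ⟨a, b, ha, hb, hab1, hab2⟩ := hcl
  have hk4 : (1 : ℤ) ≤ 4 ^ k := one_le_pow₀ (by norm_num)
  have hM : 4 * (4 ^ k * (20 * u' + 1)) ≤ R := by
    push_cast at hMh
    nlinarith
  have hD : 1000 * u' ≤ R := by
    push_cast at hMh
    nlinarith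
  have hR3 : 1000 ≤ R := by linarith
  have hR1 : 1 ≤ R := by linarith
  have htR : t ≤ R := by linarith
  have hMD : 20 * u' + 1 ≤ 4 ^ k * (20 * u' + 1) := by nlinarith
  set M := (4 : ℤ) ^ k * (20 * u' + 1) with hMdef
  have hl0 := lab_far hR1 hc0
  have hl0' := plab_far hR1 hc0
  have hTF := tf_of hl0 ha
  have hTB := tb_of hl0' hb
  obtain ⟨hva, hva'⟩ := vx_bd hTF
  -- the strands in the resampled configuration
  have hcong : ∀ ω' ⊆ E, TipF (mix (AR E W c0 R ω) ω ω' ∪ W) (BB R) c0 a ∧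
      TipB (mix (AR E W c0 R ω) ω ω' ∪ W) (BB R) c0 b := by
    intro ω' hω'
    have h0 := mix_inter (AR E W c0 R ω) ω ω'
    exact ⟨(tipF_iff hω (H99.NC.mix_subset hω hω') h0 a).2 ha,
      (tipB_iff hω (H99.NC.mix_subset hω hω') h0 b).2 hb⟩
  have halive : ∀ ω' ⊆ E, Alive t (mix (AR E W c0 R ω) ω ω' ∪ W) c0 → ∃ (a' : ℤ × ℤ) (m : ℕ),
      (nx (mix (AR E W c0 R ω) ω ω' ∪ W))^[m] a = a' ∧ lab a' ∈ BB t := by
    intro ω' hω' h
    obtain ⟨a', N, h1, h2, h3⟩ := h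
    obtain ⟨⟨n, g1, g2, g3⟩, -⟩ := hcong ω' hω'
    have hNn : n ≤ N := by
      by_contra hcon
      apply g3 N (by omega)
      rw [h1]
      exact Pool.Agent.H39.ZF.BB_mono htR h2
    refine ⟨a', N - n, ?_, h2⟩
    rw [← g1, ← Function.iterate_add_apply, show N - n + n = N by omega, h1]
  rcases hPA R (20 * u') a b hR1 (by linarith) hTF hTB hab1 hab2 with hW | hW
  · -- dual case
    have hstep : Pr E (fun ω' => Alive t (mix (AR E W c0 R ω) ω ω' ∪ W) c0) ≤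
        Pr E (fun ω' => (fun η : Finset (ℤ × ℤ) => ∃ p v : ℤ × ℤ, |p.1 - (vx a).1| ≤ 20 * u' + 1 ∧
          |p.2 - (vx a).2| ≤ 20 * u' + 1 ∧ (M ≤ |v.1 - (vx a).1| ∨ M ≤ |v.2 - (vx a).2|) ∧ Co η p v)
          (du E ω')) := by
      refine Pr_mono fun ω' hω' hal => ?_
      obtain ⟨a', m, hm, hla⟩ := halive ω' hω' hal
      obtain ⟨haw, hbw⟩ := hcong ω' hω'
      have hfarM := far_of (fi_of_lab hla) hva' hR hM hR3
      obtain ⟨y, hy1, hy2, hy3⟩ := arm_dual hPB2 hR1 hl0 hl0' haw hbw hW hm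
        (Pool.Agent.H39.ZF.BB_mono htR hla) (hfarM.imp (hMD.trans_lt) (hMD.trans_lt))
      obtain ⟨z, h1, h4⟩ := nc_exit hy3 ⟨hy1.trans hMD, hy2.trans hMD⟩ hfarM
      refine ⟨y, z, hy1, hy2, h1, ?_⟩
      refine Relation.ReflTransGen.mono (fun f g hfg => ?_) _ _ h4
      obtain ⟨⟨h5, e, h6, h7, h8⟩, h9, h10⟩ := hfg
      refine ⟨h5, ?_⟩
      have heB := nc_mem hva hM hR3 h5 h6 h9 h10
      rw [h6]
      exact StrandAux.mem_du (hE heB) fun h14 => h7 ((free_lab hω hω' hd hE heB h8).1 h14)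
    refine hstep.trans ((Pr_du E (fun η => ∃ p v : ℤ × ℤ, |p.1 - (vx a).1| ≤ 20 * u' + 1 ∧
      |p.2 - (vx a).2| ≤ 20 * u' + 1 ∧ (M ≤ |v.1 - (vx a).1| ∨ M ≤ |v.2 - (vx a).2|) ∧
      Co η p v)).le.trans ?_)
    refine (hdec (E.map sh1) (fun e he => ?_) (vx a) (20 * u' + 1) (by omega) k).trans hk.le
    rw [mem_map] at he
    obtain ⟨l, hl, rfl⟩ := he
    have := hodd l hl
    simp only [sh1, Function.Embedding.coeFn_mk]
    omega
  · -- open case
    have hstep : Pr E (fun ω' => Alive t (mix (AR E W c0 R ω) ω ω' ∪ W) c0) ≤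
        Pr E (fun η => ∃ p v : ℤ × ℤ, |p.1 - (vx a).1| ≤ 20 * u' + 1 ∧
          |p.2 - (vx a).2| ≤ 20 * u' + 1 ∧
          (M ≤ |v.1 - (vx a).1| ∨ M ≤ |v.2 - (vx a).2|) ∧ Co η p v) := by
      refine Pr_mono fun ω' hω' hal => ?_
      obtain ⟨a', m, hm, hla⟩ := halive ω' hω' hal
      obtain ⟨haw, hbw⟩ := hcong ω' hω'
      have hvx := vx_of_lab hla
      have hfarM := far_of ⟨hvx.1.trans (by linarith), hvx.2.trans (by linarith)⟩ hva' hR hM hR3
      have hMD' : 20 * u' ≤ M := by linarith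
      obtain ⟨y, hy1, hy2, hy3⟩ := arm_open hPB1 hR1 hl0 hl0' haw hbw hW hm (hvx.1.trans htR)
        (hvx.2.trans htR) (hfarM.imp hMD'.trans_lt hMD'.trans_lt)
      obtain ⟨v', h4, h5⟩ := co_exit hy3 (q := vx a) (M := M) ⟨hy1.trans hMD', hy2.trans hMD'⟩ hfarM
      refine ⟨y, v', by linarith, by linarith, h4, h5.mono fun e he => ?_⟩
      obtain ⟨h7, h8⟩ := mem_inter.1 he
      obtain ⟨h9, h10⟩ := mem_NO.1 h7
      have heB := bx_mem hva hM hR3 h8
      exact (free_lab hω hω' hd hE heB h10).2 h9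
    exact hstep.trans ((hdec E hodd (vx a) (20 * u' + 1) (by omega) k).trans hk.le)

end Pool.Agent.H59.ZF
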