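import Mathlib
import Pool.Agent.H59.ZF.PC
import Pool.Agent.H95.ZF.PA

set_option autoImplicit false
open Finset

/-! # (c2), T9: bad states are rare -/

namespace Pool.Agent.H59.ZF

open Pool.Agent.H75.Perc hiding fc BB
open Pool.Agent.H75.TwoArm Pool.Agent.Q1 Pool.Agent.H47.NC Pool.Agent.ZF
open Pool.Agent.H99.NC Pool.Agent.Q1.M6c Pool.Agent.H65.Four2 Pool.Agent.H65.G1 Pool.Agent.H53.ZF
open Pool.Agent.H99.ZF

theorem t9c : T9c := pc Pool.Agent.H95.ZF.pa pb1 pb2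

/-- **T9** -/
theorem t9 : T9 := by
  intro κ hκ
  obtain ⟨M1, hM1, h1⟩ := t9_near κ hκ
  obtain ⟨M2, _, h2⟩ := t9c κ hκ
  refine ⟨M1 + M2, by omega, ?_⟩
  intro t u hu hMu E W c0 hd hodd R hR hE hc0 ω hω
  have e1 : (M1 : ℤ) * u ≤ t := by
    push_cast at hMu
    nlinarith [show (0 : ℤ) ≤ M2 from Int.natCast_nonneg _]
  refine ⟨h1 t u hu e1 E W c0 hd hodd R hR hE hc0 ω hω, fun u' hu' hMu' hcl => ?_⟩
  have e2 : (M2 : ℤ) * u' ≤ R := by
    push_cast at hMu'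
    nlinarith [show (0 : ℤ) ≤ M1 from Int.natCast_nonneg _]
  exact h2 t E W c0 hd hodd R hR hE hc0 ω hω u' hu' e2 hcl

end Pool.Agent.H59.ZF
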